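import Mathlib
import Pool.Agent.Lib.MP_60c8e6_al.Basic
import Pool.Agent.Lib.MP_60c8e6_al.FarCap

set_option autoImplicit false

namespace Pool.Agent.Results.MP_60c8e6_al.EqualityNotOnlyCaps

open MeasureTheory Matrix Pointwise Pool.Agent.Lib.MP_60c8e6_al

/-- **Q2 fails for every value of the measure.** -/
theorem result : ∀ m : ℝ, 0 < m → m < 1 / 2 → ∃ A : Set SO3, IsOpen A ∧ A.Nonempty ∧
    haar.real A = m ∧ haar.real (A * A) = 4 * m * (1 - m) ∧
    ∀ (u : Fin 3 → ℝ) (θ : ℝ), u ⬝ᵥ u = 1 → haar (symmDiff A (cap u θ)) ≠ 0 :=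
  FarCap.main

end Pool.Agent.Results.MP_60c8e6_al.EqualityNotOnlyCaps
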